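import Pool.Agent.H61.GLU.Main
import Pool.Agent.H61.GLU.Counter2

/-!
# MP_2f8bd9_al: subgroups of `GL(V)` inducing `GL(U)` on all large subspaces

Let `V` be a vector space of infinite dimension `κ` over a field `F`.  A subspace `U` is *large* if
`dim U = dim V/U = κ`.  We study the subgroups `H ≤ GL(V)` with `H^U = GL(U)` for all large `U`.

* (ZFC) such an `H` is equal to `GL(V)` iff some `h ∈ H` and some `a ≠ 0` in `F` satisfy
  `dim im (h - a) = dim V / im (h - a) = κ`;
* (ZFC) if `|F| > κ` then every such `H` is equal to `GL(V)`;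
* if `|F| ≤ κ` and `2 ^ κ = κ⁺` then some such `H` is not equal to `GL(V)`; it can even be chosen such
  that `H^U = GL(U)` for all subspaces `U` with `dim V/U = κ`;
* hence, if `2 ^ κ = κ⁺`, the answer to Q1 for `(κ, F)` is positive iff `|F| > κ`.
-/

open Cardinal

namespace Pool.Agent.Results.MP_2f8bd9_al.Dichotomy

universe u

/-- `H^U = GL(U)`: every linear automorphism `g` of `U` is the restriction to `U` of an element of `H`
(which then stabilises `U`). -/
def InducesGL {F V : Type u} [Field F] [AddCommGroup V] [Module F V]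
    (H : Subgroup (LinearMap.GeneralLinearGroup F V)) (U : Submodule F V) : Prop :=
  ∀ g : U ≃ₗ[F] U, ∃ h ∈ H, ∀ u : U, (h : V →ₗ[F] V) u = g u

/-- `H^U = GL(U)` for every large subspace `U`, i.e. `dim U = dim V = dim V/U`. -/
def Full {F V : Type u} [Field F] [AddCommGroup V] [Module F V]
    (H : Subgroup (LinearMap.GeneralLinearGroup F V)) : Prop :=
  ∀ U : Submodule F V, Module.rank F U = Module.rank F V →
    Module.rank F (V ⧸ U) = Module.rank F V → InducesGL H U

theorem result {F V : Type u} [Field F] [AddCommGroup V] [Module F V]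
    (hV : ℵ₀ ≤ Module.rank F V) :
    (∀ H : Subgroup (LinearMap.GeneralLinearGroup F V), Full H →
      (H = ⊤ ↔ ∃ h ∈ H, ∃ a : F, a ≠ 0 ∧
        Module.rank F (LinearMap.range ((h : V →ₗ[F] V) - a • LinearMap.id)) = Module.rank F V ∧
        Module.rank F (V ⧸ LinearMap.range ((h : V →ₗ[F] V) - a • LinearMap.id)) =
          Module.rank F V)) ∧
    (Module.rank F V < #F →
      ∀ H : Subgroup (LinearMap.GeneralLinearGroup F V), Full H → H = ⊤) ∧
    ((2 : Cardinal.{u}) ^ Module.rank F V = Order.succ (Module.rank F V) →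
      (#F ≤ Module.rank F V → ∃ H : Subgroup (LinearMap.GeneralLinearGroup F V), H ≠ ⊤ ∧
        ∀ U : Submodule F V, Module.rank F (V ⧸ U) = Module.rank F V → InducesGL H U) ∧
      ((∀ H : Subgroup (LinearMap.GeneralLinearGroup F V), Full H → H = ⊤) ↔
        Module.rank F V < #F)) := by
  have hstar : ∀ H : Subgroup (LinearMap.GeneralLinearGroup F V), Full H →
      Pool.Agent.H61.GLU.Star H := fun H hH U hU => hH U hU.1 hU.2
  have h2 : Module.rank F V < #F →
      ∀ H : Subgroup (LinearMap.GeneralLinearGroup F V), Full H → H = ⊤ :=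
    fun hF H hH => Pool.Agent.H61.GLU.main (hstar H hH) hV hF
  refine ⟨fun H hH => Pool.Agent.H61.GLU.criterion (hstar H hH) hV, h2, fun hG => ?_⟩
  have h3 : #F ≤ Module.rank F V → ∃ H : Subgroup (LinearMap.GeneralLinearGroup F V), H ≠ ⊤ ∧
        ∀ U : Submodule F V, Module.rank F (V ⧸ U) = Module.rank F V → InducesGL H U := by
    intro hF
    obtain ⟨H, hH, _, hI⟩ := Pool.Agent.H61.GLU.counter hV hF hG
    exact ⟨H, hH, hI⟩
  refine ⟨h3, fun hall => ?_, h2⟩
  by_contra hF
  obtain ⟨H, hH, hI⟩ := h3 (not_lt.1 hF)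
  exact hH (hall H (fun U _ hU => hI U hU))

end Pool.Agent.Results.MP_2f8bd9_al.Dichotomy
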